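import Pool.Agent.Lib.MP_bb0bab_co.CX4

/-!
# Homometric pairs of planar convex lattice sets

Every non-trivially homometric pair of convex lattice sets in `ℤ²` arises from the direct sum
construction; more precisely, up to a linear automorphism of `ℤ²`, translations and a point
reflection of the second set, it is a pair `A + B`, `A + (-B)` of the explicit family of
Averkov and Langfeld.
-/

set_option autoImplicit false

open scoped Pointwise

namespace Pool.Agent.Results.MP_bb0bab_co.HomometricFamily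

/-- The lattice set `S` is convex: every lattice point of its convex hull belongs to it. -/
def LatticeConvex (S : Finset (ℤ × ℤ)) : Prop :=
  ∀ p : ℤ × ℤ, ((p.1 : ℝ), (p.2 : ℝ)) ∈
    convexHull ℝ ((fun q : ℤ × ℤ => ((q.1 : ℝ), (q.2 : ℝ))) '' (S : Set (ℤ × ℤ))) → p ∈ S

/-- The covariogram: `g_S(x)` is the number of points of `S ∩ (S + x)`. -/
def covariogram (S : Finset (ℤ × ℤ)) (x : ℤ × ℤ) : ℕ :=
  (S ∩ S.image (fun p => p + x)).card

/-- The covariograms of `H` and `K` are equal, and `K` is neither `t + H` nor `t - H`, for any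
lattice vector `t`. -/
def NonTriviallyHomometric (H K : Finset (ℤ × ℤ)) : Prop :=
  (∀ x, covariogram H x = covariogram K x) ∧
    ∀ t : ℤ × ℤ, K ≠ H.image (fun p => t + p) ∧ K ≠ H.image (fun p => t - p)

/-- The sum `A + B` is direct: each element has exactly one representation `a + b`. -/
def IsDirect (A B : Finset (ℤ × ℤ)) : Prop :=
  ∀ a ∈ A, ∀ b ∈ B, ∀ a' ∈ A, ∀ b' ∈ B, a + b = a' + b' → a = a' ∧ b = b'

/-- The pair `H`, `K` arises from the construction with the finite nonempty sets `A`, `B` and the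
translation vectors `s`, `t`: both sums are direct, `H = s + (A + B)` and `K = t + (A + (-B))`. -/
def Arises (A B : Finset (ℤ × ℤ)) (s t : ℤ × ℤ) (H K : Finset (ℤ × ℤ)) : Prop :=
  A.Nonempty ∧ B.Nonempty ∧ IsDirect A B ∧ IsDirect A (-B) ∧
    H = (A + B).image (fun p => s + p) ∧ K = (A + -B).image (fun p => t + p)

/-- The vector `w₁ = (-k-1, 1)`. -/
def w₁ (k : ℕ) : ℤ × ℤ := (-(k : ℤ) - 1, 1)

/-- The vector `w₂ = (k, 1)`. -/
def w₂ (k : ℕ) : ℤ × ℤ := ((k : ℤ), 1)

/-- The set `{0,...,k} × {0} ∪ {0,...,k-1} × {1}`. -/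
def tile (k : ℕ) : Finset (ℤ × ℤ) :=
  (Finset.range (k + 1)).image (fun i : ℕ => ((i : ℤ), (0 : ℤ))) ∪
    (Finset.range k).image (fun i : ℕ => ((i : ℤ), (1 : ℤ)))

/-- `A` consists of all points `i w₁ + j w₂` with `p₁ ≤ i ≤ q₁`, `p₂ ≤ j ≤ q₂`, `p₃ ≤ i - j ≤ q₃`:
all points of the lattice spanned by `w₁`, `w₂` in a convex polygon whose sides have the directions
`w₁`, `w₂`, `w₁ + w₂`. -/
def IsHexagon (k : ℕ) (A : Finset (ℤ × ℤ)) : Prop :=
  ∃ p₁ q₁ p₂ q₂ p₃ q₃ : ℤ, ∀ z : ℤ × ℤ, z ∈ A ↔ ∃ i j : ℤ, z = i • w₁ k + j • w₂ k ∧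
    p₁ ≤ i ∧ i ≤ q₁ ∧ p₂ ≤ j ∧ j ≤ q₂ ∧ p₃ ≤ i - j ∧ i - j ≤ q₃

/-- For some `k ≥ 1`, a linear automorphism of `ℤ²` maps one of the sets `A`, `B` to a hexagon and
the other one to the tile. -/
def IsStandard (A B : Finset (ℤ × ℤ)) : Prop :=
  ∃ (k : ℕ) (φ : (ℤ × ℤ) ≃+ (ℤ × ℤ)), 1 ≤ k ∧
    (IsHexagon k (A.image φ) ∧ B.image φ = tile k ∨
      A.image φ = tile k ∧ IsHexagon k (B.image φ))

open Pool.Agent.Lib.MP_bb0bab_co

theorem covariogram_eq (S : Finset (ℤ × ℤ)) (x : ℤ × ℤ) : covariogram S x = cov S x := by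
  unfold covariogram cov
  congr 1
  ext p
  rw [Finset.mem_inter, Finset.mem_image, Finset.mem_filter]
  constructor
  · rintro ⟨h1, q, hq, rfl⟩
    exact ⟨h1, by rwa [add_sub_cancel_right]⟩
  · rintro ⟨h1, h2⟩
    exact ⟨h1, p - x, h2, sub_add_cancel p x⟩

theorem covariogram_zero (S : Finset (ℤ × ℤ)) : covariogram S 0 = S.card := by
  unfold covariogram
  congr 1
  ext p
  simp

theorem nonempty_of {H K : Finset (ℤ × ℤ)} (h : NonTriviallyHomometric H K) :
    H.Nonempty ∧ K.Nonempty := by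
  have h0 := h.1 0
  rw [covariogram_zero, covariogram_zero] at h0
  have key : H.Nonempty := by
    rw [Finset.nonempty_iff_ne_empty]
    intro hH
    have hK : K = ∅ := by
      rw [hH, Finset.card_empty] at h0
      exact Finset.card_eq_zero.1 h0.symm
    exact (h.2 0).1 (by rw [hH, hK, Finset.image_empty])
  refine ⟨key, ?_⟩
  rw [← Finset.card_pos, ← h0]
  exact key.card_pos

theorem not_trivial {H K : Finset (ℤ × ℤ)} (h : NonTriviallyHomometric H K) : ¬ Trivial H K := by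
  rintro ⟨t, ht | ht⟩
  · refine (h.2 t).1 ?_
    rw [ht]
    exact Finset.image_congr fun p _ => add_comm p t
  · refine (h.2 t).2 ?_
    rw [ht]
    refine Finset.image_congr fun p _ => ?_
    show -p + t = t - p
    abel

theorem tile_eq (k : ℕ) : tile k = Bk k := by
  ext p
  rw [mem_Bk]
  simp only [tile, Finset.mem_union, Finset.mem_image, Finset.mem_range]
  constructor
  · rintro (⟨i, hi, rfl⟩ | ⟨i, hi, rfl⟩)
    · left
      refine ⟨?_, ?_, rfl⟩
      · show (0 : ℤ) ≤ (i : ℤ)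
        omega
      · show (i : ℤ) ≤ (k : ℤ)
        omega
    · right
      refine ⟨?_, ?_, rfl⟩
      · show (0 : ℤ) ≤ (i : ℤ)
        omega
      · show (i : ℤ) ≤ (k : ℤ) - 1
        omega
  · rintro (⟨h1, h2, h3⟩ | ⟨h1, h2, h3⟩)
    · left
      obtain ⟨n, hn⟩ := Int.eq_ofNat_of_zero_le h1
      exact ⟨n, by omega, Prod.ext hn.symm h3.symm⟩
    · right
      obtain ⟨n, hn⟩ := Int.eq_ofNat_of_zero_le h1
      exact ⟨n, by omega, Prod.ext hn.symm h3.symm⟩

theorem hexagon_iff (k : ℕ) (A : Finset (ℤ × ℤ)) : IsHexagon k A ↔ IsHex k A := by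
  have e : ∀ i j : ℤ, i • w₁ k + j • w₂ k = (i * (-k - 1) + j * k, i + j) := by
    intro i j
    ext
    · simp only [w₁, w₂, Prod.fst_add, Prod.smul_fst, smul_eq_mul]
    · simp only [w₁, w₂, Prod.snd_add, Prod.smul_snd, smul_eq_mul, mul_one]
  unfold IsHexagon IsHex
  simp only [e]

/-- `lin` of determinant `±1` as an automorphism -/
theorem exists_equiv (a b c d : ℤ) (hdet : a * d - b * c = 1 ∨ a * d - b * c = -1) :
    ∃ φ : (ℤ × ℤ) ≃+ (ℤ × ℤ), ∀ p, φ p = lin a b c d p := by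
  have hs : Function.Surjective (linHom a b c d) := by
    intro q
    rcases hdet with h | h
    · refine ⟨(d * q.1 - b * q.2, a * q.2 - c * q.1), ?_⟩
      ext
      · simp only [linHom_apply, lin]
        linear_combination q.1 * h
      · simp only [linHom_apply, lin]
        linear_combination q.2 * h
    · refine ⟨(-(d * q.1 - b * q.2), -(a * q.2 - c * q.1)), ?_⟩
      ext
      · simp only [linHom_apply, lin]
        linear_combination (-q.1) * h
      · simp only [linHom_apply, lin]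
        linear_combination (-q.2) * h
  exact ⟨AddEquiv.ofBijective (linHom a b c d) ⟨lin_injective a b c d hdet, hs⟩, fun p => rfl⟩

theorem add_single_eq (S : Finset (ℤ × ℤ)) (s : ℤ × ℤ) : S + {s} = S.image (fun p => s + p) := by
  rw [← image_add_eq]
  exact Finset.image_congr fun p _ => add_comm p s

/-- a linear automorphism maps `H` to `s + (A + B)` and `K` to `t + (A + (-B))` or to
`t - (A + (-B))`, where `B` is the tile and `A` is a hexagon -/
def InFamily (H K : Finset (ℤ × ℤ)) : Prop :=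
  ∃ (k : ℕ) (φ : (ℤ × ℤ) ≃+ (ℤ × ℤ)) (A : Finset (ℤ × ℤ)) (s t : ℤ × ℤ), 1 ≤ k ∧
    IsHexagon k A ∧ H.image φ = (A + tile k).image (fun p => s + p) ∧
    (K.image φ = (A + -tile k).image (fun p => t + p) ∨
      K.image φ = (A + -tile k).image (fun p => t - p))

theorem inFamily_of {H K : Finset (ℤ × ℤ)} (h : Fam H K) : InFamily H K := by
  obtain ⟨k, hk, a, b, c, d, hdet, A, s, t, hA, h1, h2⟩ := h
  obtain ⟨φ, hφ⟩ := exists_equiv a b c d hdet
  have e : ∀ S : Finset (ℤ × ℤ), S.image φ = S.image (lin a b c d) :=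
    fun S => Finset.image_congr fun p _ => hφ p
  refine ⟨k, φ, A, s, t, hk, (hexagon_iff k A).2 hA, ?_, ?_⟩
  · rw [e, h1, add_single_eq, tile_eq]
  · rcases h2 with h2 | h2
    · left
      rw [e, h2, add_single_eq, tile_eq, sub_eq_add_neg]
    · right
      rw [e, h2, add_single_eq, tile_eq]
      have h3 : Bk k - A = -(A + -Bk k) := by rw [neg_add, neg_neg, add_comm, sub_eq_add_neg]
      rw [h3, ← image_neg_eq, Finset.image_image]
      refine Finset.image_congr fun p _ => ?_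
      show t + -p = t - p
      rw [sub_eq_add_neg]

/-- the value of `2x + y` is a multiple of `2k+1` on a hexagon -/
theorem hexagon_dvd {k : ℕ} {A : Finset (ℤ × ℤ)} (hA : IsHexagon k A) {a : ℤ × ℤ} (ha : a ∈ A) :
    ∃ m : ℤ, 2 * a.1 + a.2 = (2 * k + 1) * m := by
  obtain ⟨p₁, q₁, p₂, q₂, p₃, q₃, h⟩ := hA
  obtain ⟨i, j, rfl, -⟩ := (h a).1 ha
  refine ⟨j - i, ?_⟩
  simp only [w₁, w₂, Prod.fst_add, Prod.smul_fst, smul_eq_mul, Prod.snd_add, Prod.smul_snd,
    mul_one]
  ring

/-- the form `2x + y` takes different values in `0, ..., 2k` on the tile -/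
theorem tile_range {k : ℕ} {b : ℤ × ℤ} (hb : b ∈ tile k) :
    0 ≤ 2 * b.1 + b.2 ∧ 2 * b.1 + b.2 ≤ 2 * k := by
  rw [tile_eq, mem_Bk] at hb
  omega

theorem tile_inj {k : ℕ} {b b' : ℤ × ℤ} (hb : b ∈ tile k) (hb' : b' ∈ tile k)
    (h : 2 * b.1 + b.2 = 2 * b'.1 + b'.2) : b = b' := by
  rw [tile_eq, mem_Bk] at hb hb'
  ext <;> omega

theorem eq_of_multiple {k : ℕ} {x y m : ℤ} (h : x - y = (2 * k + 1) * m) (hx : 0 ≤ x)
    (hx' : x ≤ 2 * k) (hy : 0 ≤ y) (hy' : y ≤ 2 * k) : x = y := by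
  have hk : (0 : ℤ) < 2 * k + 1 := by omega
  have h1 : (2 * (k : ℤ) + 1) * m < (2 * k + 1) * 1 := by linarith
  have h2 : (2 * (k : ℤ) + 1) * (-1) < (2 * k + 1) * m := by linarith
  have h3 := lt_of_mul_lt_mul_left h1 hk.le
  have h4 := lt_of_mul_lt_mul_left h2 hk.le
  have h5 : m = 0 := by omega
  rw [h5, mul_zero] at h
  linarith

theorem direct_tile {k : ℕ} {A : Finset (ℤ × ℤ)} (hA : IsHexagon k A) : IsDirect A (tile k) := by
  intro a ha b hb a' ha' b' hb' h
  obtain ⟨m, hm⟩ := hexagon_dvd hA ha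
  obtain ⟨m', hm'⟩ := hexagon_dvd hA ha'
  have h1 : a.1 + b.1 = a'.1 + b'.1 := congrArg Prod.fst h
  have h2 : a.2 + b.2 = a'.2 + b'.2 := congrArg Prod.snd h
  have r := tile_range hb
  have r' := tile_range hb'
  have h3 : 2 * b.1 + b.2 = 2 * b'.1 + b'.2 :=
    eq_of_multiple (m := m' - m) (by linear_combination 2 * h1 + h2 - hm + hm') r.1 r.2 r'.1 r'.2
  have h4 := tile_inj hb hb' h3
  rw [h4] at h
  exact ⟨add_right_cancel h, h4⟩

theorem direct_neg_tile {k : ℕ} {A : Finset (ℤ × ℤ)} (hA : IsHexagon k A) :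
    IsDirect A (-tile k) := by
  intro a ha c hc a' ha' c' hc' h
  rw [Finset.mem_neg] at hc hc'
  obtain ⟨b, hb, rfl⟩ := hc
  obtain ⟨b', hb', rfl⟩ := hc'
  obtain ⟨m, hm⟩ := hexagon_dvd hA ha
  obtain ⟨m', hm'⟩ := hexagon_dvd hA ha'
  have h1 : a.1 + -b.1 = a'.1 + -b'.1 := congrArg Prod.fst h
  have h2 : a.2 + -b.2 = a'.2 + -b'.2 := congrArg Prod.snd h
  have r := tile_range hb
  have r' := tile_range hb'
  have h3 : 2 * b.1 + b.2 = 2 * b'.1 + b'.2 :=
    eq_of_multiple (m := m - m') (by linear_combination -(2 * h1 + h2 - hm + hm')) r.1 r.2 r'.1 r'.2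
  have h4 := tile_inj hb hb' h3
  rw [h4] at h
  exact ⟨add_right_cancel h, by rw [h4]⟩

theorem IsDirect.comm {A B : Finset (ℤ × ℤ)} (h : IsDirect A B) : IsDirect B A := by
  intro b hb a ha b' hb' a' ha' he
  have h1 := h a ha b hb a' ha' b' hb' (by rw [add_comm a, he, add_comm])
  exact ⟨h1.2, h1.1⟩

/-- the roles of the two sets in `A + (-B)` may be exchanged -/
theorem IsDirect.swap {A B : Finset (ℤ × ℤ)} (h : IsDirect A (-B)) : IsDirect B (-A) := by
  intro b hb c hc b' hb' c' hc' he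
  rw [Finset.mem_neg] at hc hc'
  obtain ⟨a, ha, rfl⟩ := hc
  obtain ⟨a', ha', rfl⟩ := hc'
  have h1 := h a ha (-b) (Finset.neg_mem_neg hb) a' ha' (-b') (Finset.neg_mem_neg hb') (by
    rw [← neg_inj, neg_add, neg_add, neg_neg, neg_neg, add_comm, he, add_comm])
  exact ⟨neg_injective h1.2, by rw [h1.1]⟩

theorem IsDirect.map {A B : Finset (ℤ × ℤ)} (h : IsDirect A B) (ψ : (ℤ × ℤ) ≃+ (ℤ × ℤ)) :
    IsDirect (A.image ψ) (B.image ψ) := by
  intro x hx y hy x' hx' y' hy' he
  rw [Finset.mem_image] at hx hy hx' hy'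
  obtain ⟨a, ha, rfl⟩ := hx
  obtain ⟨b, hb, rfl⟩ := hy
  obtain ⟨a', ha', rfl⟩ := hx'
  obtain ⟨b', hb', rfl⟩ := hy'
  rw [← map_add, ← map_add] at he
  obtain ⟨h1, h2⟩ := h a ha b hb a' ha' b' hb' (ψ.injective he)
  rw [h1, h2]
  exact ⟨rfl, rfl⟩

theorem image_translate_add (ψ : (ℤ × ℤ) ≃+ (ℤ × ℤ)) (A B : Finset (ℤ × ℤ)) (s : ℤ × ℤ) :
    ((A + B).image (fun p => s + p)).image ψ =
      (A.image ψ + B.image ψ).image (fun p => ψ s + p) := by
  have h : (A + B).image ψ = A.image ψ + B.image ψ := Finset.image_add ψ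
  rw [← h, Finset.image_image, Finset.image_image]
  exact Finset.image_congr fun p _ => map_add ψ s p

theorem image_neg_map (ψ : (ℤ × ℤ) ≃+ (ℤ × ℤ)) (B : Finset (ℤ × ℤ)) :
    (-B).image ψ = -(B.image ψ) := by
  rw [← image_neg_eq, ← image_neg_eq, Finset.image_image, Finset.image_image]
  exact Finset.image_congr fun p _ => map_neg ψ p

theorem image_symm_image (φ : (ℤ × ℤ) ≃+ (ℤ × ℤ)) (S : Finset (ℤ × ℤ)) :
    (S.image φ).image φ.symm = S := by
  rw [Finset.image_image]
  conv_rhs => rw [← Finset.image_id (s := S)]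
  exact Finset.image_congr fun p _ => φ.symm_apply_apply p

theorem image_image_symm (φ : (ℤ × ℤ) ≃+ (ℤ × ℤ)) (S : Finset (ℤ × ℤ)) :
    (S.image φ.symm).image φ = S := by
  rw [Finset.image_image]
  conv_rhs => rw [← Finset.image_id (s := S)]
  exact Finset.image_congr fun p _ => φ.apply_symm_apply p

theorem arises_of {H K : Finset (ℤ × ℤ)} (hH : H.Nonempty) (h : InFamily H K) :
    ∃ (A B : Finset (ℤ × ℤ)) (s t : ℤ × ℤ), Arises A B s t H K ∧ IsStandard A B := by
  obtain ⟨k, φ, A, s, t, hk, hA, h1, h2⟩ := h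
  have hAne : A.Nonempty := by
    have h3 : (H.image φ).Nonempty := hH.image φ
    rw [h1, Finset.image_nonempty] at h3
    exact h3.of_add_left
  have hBne : (tile k).Nonempty := ⟨(0, 0), by rw [tile_eq, mem_Bk]; simp⟩
  rcases h2 with h2 | h2
  · refine ⟨A.image φ.symm, (tile k).image φ.symm, φ.symm s, φ.symm t, ⟨hAne.image _,
      hBne.image _, (direct_tile hA).map _, ?_, ?_, ?_⟩, ⟨k, φ, hk, Or.inl ⟨?_, ?_⟩⟩⟩
    · rw [← image_neg_map]
      exact (direct_neg_tile hA).map _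
    · rw [← image_translate_add, ← h1, image_symm_image]
    · rw [← image_neg_map, ← image_translate_add, ← h2, image_symm_image]
    · rw [image_image_symm]
      exact hA
    · rw [image_image_symm]
  · have h3 : K.image φ = (tile k + -A).image (fun p => t + p) := by
      have h4 : tile k + -A = -(A + -tile k) := by rw [neg_add, neg_neg, add_comm]
      rw [h2, h4, ← image_neg_eq (A + -tile k), Finset.image_image]
      refine Finset.image_congr fun p _ => ?_
      show t - p = t + -p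
      rw [sub_eq_add_neg]
    refine ⟨(tile k).image φ.symm, A.image φ.symm, φ.symm s, φ.symm t, ⟨hBne.image _,
      hAne.image _, (direct_tile hA).comm.map _, ?_, ?_, ?_⟩, ⟨k, φ, hk, Or.inr ⟨?_, ?_⟩⟩⟩
    · rw [← image_neg_map]
      exact (direct_neg_tile hA).swap.map _
    · rw [← image_translate_add, add_comm (tile k), ← h1, image_symm_image]
    · rw [← image_neg_map, ← image_translate_add, ← h3, image_symm_image]
    · rw [image_image_symm]
    · rw [image_image_symm]
      exact hA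

/-- **Theorem.** Every non-trivially homometric pair of convex lattice sets in `ℤ²` arises from the
construction; moreover the two summands can be chosen such that, in suitable coordinates, one of
them is the tile and the other one is a hexagon. -/
theorem result (H K : Finset (ℤ × ℤ)) (hH : LatticeConvex H) (hK : LatticeConvex K)
    (hHK : NonTriviallyHomometric H K) :
    ∃ (A B : Finset (ℤ × ℤ)) (s t : ℤ × ℤ), Arises A B s t H K ∧ IsStandard A B := by
  obtain ⟨nH, nK⟩ := nonempty_of hHK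
  exact arises_of nH (inFamily_of (homometric_fam nH nK hH hK (fun x => by
    rw [← covariogram_eq, ← covariogram_eq]
    exact hHK.1 x) (not_trivial hHK)))

end Pool.Agent.Results.MP_bb0bab_co.HomometricFamily
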